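import Pool.Agent.R358.Mob.Tur

/-! Graphs with mobile general position number two: the Turán graph is the unique extremal one. -/

set_option autoImplicit false

namespace Pool.Agent.Results.MP_490342_co.TuranExtremal

open SimpleGraph Pool.Agent.R358.Mob

/-- For every `n ≥ 4` the Turán graph `T(n,3)` has mobile general position number two, every graph
of order `n` with mobile general position number two has at most as many edges as `T(n,3)`, and
every such graph with that many edges is isomorphic to `T(n,3)`. -/
theorem result (n : ℕ) (hn : 4 ≤ n) :
    mob (turanGraph n 3) = 2 ∧
      ∀ (V : Type) [Fintype V] [DecidableEq V] (G : SimpleGraph V) [DecidableRel G.Adj],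
        Fintype.card V = n → mob G = 2 →
          G.edgeFinset.card ≤ (turanGraph n 3).edgeFinset.card ∧
            (G.edgeFinset.card = (turanGraph n 3).edgeFinset.card →
              Nonempty (G ≃g turanGraph n 3)) := by
  refine ⟨mob_turan hn, ?_⟩
  intro V _ _ G _ hV hm
  subst hV
  exact main G hn hm

end Pool.Agent.Results.MP_490342_co.TuranExtremal
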